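import Pool.Agent.R905.WM.Main

/-!
# Weight-monodromy for Hyodo–Kato cohomology and smooth affine cubic hypersurfaces

`K` is a field (for the problem: a finite extension of `ℚ_p` with residue field of `q = p ^ f`
elements), `E` an algebraically closed field of characteristic zero (an algebraic closure of `K_0`). For
a separated scheme `X` of finite type over `K`, `T.H X n w` is the graded piece `gr^W_w` of the
(geometric) weight filtration on the Hyodo–Kato cohomology with compact supports `H^n_{HK,c}(X)`, with
scalars extended to `E`, with its operators `φ ^ f` and `N`. Since `gr^W` is exact, the property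
`MixedWM` of `X` satisfies two-out-of-three for a closed subscheme and its complement (five lemma); so
it is enough to know it for smooth affine cubic hypersurfaces.
-/

set_option autoImplicit false

open AlgebraicGeometry Pool.Agent.R904.CU Pool.Agent.R905.WM

namespace Pool.Agent.Results.MP_d037d4_ag.CubicHypersurfaces

/-- Let `S` be a class of schemes such as the smooth projective `K`-schemes. The following are
equivalent:
(1) the weight-monodromy conjecture for the Hyodo–Kato cohomology of all `X` in `S`;
(2) for all separated schemes `X` of finite type over `K`, its analogue for all
`gr^W_w H^n_{HK,c}(X)`;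
(3) the same for the smooth hypersurfaces `X` of degree at most three in affine spaces over `K`. -/
theorem result (K : Type) [Field K] (E : Type) [Field E] [CharZero E] [IsAlgClosed E] (q : ℕ)
    (hq : 2 ≤ q) (T : WeightedCohomology K E) (hT : T.IsCohomology q) (S : SchProp K)
    (hS : T.Pure S) (hM : Models S) :
    [∀ X f, SepFinType K X f → S X f → T.WM q X f,
     ∀ X f, SepFinType K X f → T.MixedWM q X f,
     ∀ (σ : Type) [Fintype σ] (F : MvPolynomial σ K), IsSmoothCubic F →
       T.MixedWM q _ (hyp F)].TFAE :=
  WeightedCohomology.main hq hT hS hM

end Pool.Agent.Results.MP_d037d4_ag.CubicHypersurfaces
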