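import Pool.Agent.R942.WR.Crystal

/-!
# MP_d037d4_ag: wrong Frobenius eigenvalues and the part outside of the simple isocrystals
-/

set_option autoImplicit false

open Module

universe u v

namespace Pool.Agent.Results.MP_d037d4_ag.IsocrystalBound

open Pool.Agent.Y143 Pool.Agent.R942.WP Pool.Agent.R942.WB Pool.Agent.R942.WR

/-- **The defect of the `p`-adic weight-monodromy conjecture and the non-simple isocrystals.** Let `K`
be a finite extension of `ℚ_p` with residue field with `q = p ^ f` elements, and let `Y` be a smooth
projective variety of dimension `n` over `K` with a projective strictly semistable model over the ring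
of integers. Let `H^m` be the Hyodo-Kato cohomology, with the monodromy filtration `M` of `N`.

We call a character of the Frobenius in the primitive part `P^(i, w)` of the term `E_1^(i, w)` of the
weight spectral sequence of the special fibre good if it is simple; or it is a Tate character in the
weight `w = 2`, and the stratum `Y^(i)` satisfies the Tate conjecture for divisors; or it is contained
in a simple sub-isocrystal of `P^(i, w)`; or it is contained in a sub-isocrystal of some slope whose
dimension is at most the denominator of the slope.

Let `r ≥ 1` and suppose that all characters of weight `w` with `2 ≤ w ≤ r` are good at all places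
`(i, w)` with `1 ≤ i ≤ n - w` (for `r = 1` there is no condition). Let `r + 2 ≤ m ≤ n`. On the graded
pieces `gr^M_j` of `H^m` and of `H^(2 n - m)` with `|j| = m - r - 2`, the number of Frobenius
eigenvalues (with multiplicities) which are not `q`-Weil numbers of weight `m + j` (`2 n - m + j`,
respectively) is at most `2 ⌊b / 2⌋`, where `b` is the dimension of the part of `P^(i, r + 1)`,
`i = m - r - 1`, given by the characters which are not good, or whose dual is not good, at one of the
places `(i', r + 1)` with `1 ≤ i' ≤ i`. -/
theorem result {Ω : Type u} [Field Ω] [CharZero Ω] [IsAlgClosed Ω] {Γ : Type} {n p f : ℕ}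
    (hp : p ≠ 0) (hf : 0 < f) (Y : Degeneration.{u, v} Ω Γ n (p ^ f))
    (A : DivisorClasses Y.toSpecialFibre) (E : Crystals Y.toStrataData p f) {val : Ω → ℚ}
    (hval : IsValuation E.K₀ E.σ val) (r : ℕ) (hr : 1 ≤ r)
    (hG : CrystalGoodUpTo A E.toCrystalData p f val r) (m : ℕ) (hm : r + 2 ≤ m) (hmn : m ≤ n)
    (j : ℤ) (hj : |j| = (m : ℤ) - r - 2) :
    WrongAtMost Y.toSemistableModel m j
      (2 * (violDim Y.toSpecialFibre (CrystalGood A E.toCrystalData p f val (r + 1))
        (m - r - 1) (r + 1) / 2)) ∧
    WrongAtMost Y.toSemistableModel (2 * n - m) j
      (2 * (violDim Y.toSpecialFibre (CrystalGood A E.toCrystalData p f val (r + 1))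
        (m - r - 1) (r + 1) / 2)) := by
  have : NeZero p := ⟨hp⟩
  exact bound_crystal A E hval rfl hf hr hG hm hmn j hj

end Pool.Agent.Results.MP_d037d4_ag.IsocrystalBound
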