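import Pool.Agent.R942.WP.Cond

/-!
# MP_d037d4_ag: the p-adic weight-monodromy conjecture and simple isocrystals
-/

set_option autoImplicit false

open Module

universe u v

namespace Pool.Agent.Results.MP_d037d4_ag.SimpleIsocrystals

open Pool.Agent.Y143 Pool.Agent.R942.WM Pool.Agent.R942.WS Pool.Agent.R942.WP

/-- **The `p`-adic weight-monodromy conjecture: outer graded pieces and simple isocrystals.** Let `K`
be a finite extension of `ℚ_p` with residue field with `q = p ^ f` elements, and let `Y` be a smooth
projective variety of dimension `n` over `K` with a projective strictly semistable model over the ring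
of integers. Let `H^m` be the Hyodo-Kato cohomology, with the monodromy filtration `M` of `N`.

(1) For all `m ≤ n` the conjecture holds for the graded pieces `gr^M_j` of `H^m` and of `H^(2 n - m)`
with `|j| ≥ m - 2`, for instance for all `gr^M_j H^3` with `j ≠ 0`.

(2) Let `r ≥ 1`, and suppose that for all `i ≥ 1` and `2 ≤ w ≤ r` with `i + w ≤ n`, every character of
the Frobenius in the primitive part `P^(i, w)` of the term `E_1^(i, w)` of the weight spectral sequence
of the special fibre satisfies one of the following conditions: it is simple; it is a Tate character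
in the weight `w = 2`, and the stratum `Y^(i)` satisfies the Tate conjecture for divisors; it is
contained in a simple sub-isocrystal of `P^(i, w)`; it is contained in a sub-isocrystal of some slope
whose dimension is at most the denominator of the slope. Then the same is true for
`|j| ≥ m - r - 1`. If `n ≤ r + 1`, the conjecture holds for all `H^m`. -/
theorem result {Ω : Type u} [Field Ω] [CharZero Ω] [IsAlgClosed Ω] {Γ : Type} {n p f : ℕ}
    (hp : p ≠ 0) (hf : 0 < f) (Y : Degeneration.{u, v} Ω Γ n (p ^ f))
    (A : DivisorClasses Y.toSpecialFibre) (E : Crystals Y.toStrataData p f) {val : Ω → ℚ}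
    (hval : IsValuation E.K₀ E.σ val) :
    (∀ m ≤ n, PureBeyond Y.toSemistableModel m (m - 2) ∧
      PureBeyond Y.toSemistableModel (2 * n - m) (m - 2)) ∧
    (∀ r : ℕ, CrystalGoodUpTo A E.toCrystalData p f val r →
      (∀ m ≤ n, PureBeyond Y.toSemistableModel m (m - r - 1) ∧
        PureBeyond Y.toSemistableModel (2 * n - m) (m - r - 1)) ∧
      (n ≤ r + 1 → ∀ m ≤ 2 * n, IsMWPure (p ^ f) m (Y.actV m Y.frob) (Y.N m))) := by
  have : NeZero p := ⟨hp⟩
  refine ⟨fun m hm => ?_, fun r hr => ?_⟩
  · have := pure_beyond Y A (goodUpTo_one A) hm
    simpa [Nat.sub_sub] using this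
  · have h := goodUpTo_of_crystal A E hval rfl hf hr
    exact ⟨fun m hm => pure_beyond Y A h hm, fun hn m hm => pure_all Y A h hn m hm⟩

end Pool.Agent.Results.MP_d037d4_ag.SimpleIsocrystals
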