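import Pool.Agent.R942.WR.Main

/-!
# MP_d037d4_ag: wrong Frobenius eigenvalues and transcendental classes, Hyodo-Kato cohomology
-/

set_option autoImplicit false

open Module

universe u v

namespace Pool.Agent.Results.MP_d037d4_ag.TranscendentalBound

open Pool.Agent.Y143 Pool.Agent.R942.WB Pool.Agent.R942.WR

/-- **The defect of the `p`-adic weight-monodromy conjecture and the transcendental classes of degree
two.** Let `K` be a finite extension of `ℚ_p` with residue field with `q` elements, and let `Y` be a
smooth projective variety of dimension `n` over `K` with a projective strictly semistable model over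
the ring of integers, given by the crystalline cohomology of the strata of the special fibre and by
the Hyodo-Kato cohomology `H^m` (tensored with an algebraic closure `Ω` of the maximal unramified
subfield), with the linear Frobenius, the operator `N` and the weight spectral sequence. Let `Y^(m)`
be the disjoint union of the intersections of `m` different components of the special fibre.

Let `3 ≤ m ≤ n`. On the graded pieces `gr^M_j` of the monodromy filtration of `H^m` and of
`H^(2 n - m)` with `|j| = m - 3`, the number of Frobenius eigenvalues (with multiplicities) which are
not `q`-Weil numbers of weight `m + j` (`2 n - m + j`, respectively) is at most `2 (b_2 - ρ)`, where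
`b_2` is the dimension of `H^2_crys(Y^(m-2))` and `ρ` is the dimension of the subspace spanned by the
classes of divisors. For `n = 3` the only open graded piece is `gr^M_0 H^3`. -/
theorem result {Ω : Type u} [Field Ω] [CharZero Ω] [IsAlgClosed Ω] {Γ : Type} {n q : ℕ}
    (Y : Degeneration.{u, v} Ω Γ n q) (A : DivisorClasses Y.toSpecialFibre) (m : ℕ) (hm : 3 ≤ m)
    (hmn : m ≤ n) (j : ℤ) (hj : |j| = (m : ℤ) - 3) :
    WrongAtMost Y.toSemistableModel m j (2 * transRank A (m - 3)) ∧
    WrongAtMost Y.toSemistableModel (2 * n - m) j (2 * transRank A (m - 3)) :=
  bound_all A hm hmn j hj

end Pool.Agent.Results.MP_d037d4_ag.TranscendentalBound
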